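import Pool.Agent.H648.Q.Defs2
import Pool.Agent.H980.Q648.Tri
import Pool.Agent.H287.Q648.MUL

/-!
# Q648-TRII: from pairs to triples with character, imaginary case
-/

set_option autoImplicit false

namespace Pool.Agent.H356.Q648

open Finset
open Pool.Agent.H648.Q Pool.Agent.H648.Q2
open Pool.Agent.W78.GA (Qd nm prim pball dt ip)
open Pool.Agent.W78.GS (Pm)
open Pool.Agent.W78.GT (Tr NT tri Qp)
open Pool.Agent.H980.Q648 (psi psi_facts ip_coprime)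

/-- the discriminant is a square modulo the primes dividing a primitive norm -/
lemma sq_of_prim {b m : ℤ} {A : ℕ} {x y N : ℤ} (hN : N = x ^ 2 + (b * A) * x * y + (m * A ^ 2) * y ^ 2)
    (hp : Int.gcd x y = 1) {l : ℕ} (hl : l.Prime) (hlA : Nat.Coprime l A) (hd : (l : ℤ) ∣ N) :
    ∃ s : ZMod l, s * s = ((b ^ 2 - 4 * m : ℤ) : ZMod l) := by
  have : Fact l.Prime := ⟨hl⟩
  have h0 : ((N : ℤ) : ZMod l) = 0 := (ZMod.intCast_zmod_eq_zero_iff_dvd _ _).2 hd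
  rw [hN] at h0
  push_cast at h0
  have hA : (A : ZMod l) ≠ 0 := by
    intro h
    have h1 := (ZMod.natCast_eq_zero_iff _ _).1 h
    have h2 : l ∣ 1 := by rw [← hlA]; exact Nat.dvd_gcd dvd_rfl h1
    exact hl.one_lt.ne' (Nat.dvd_one.1 h2)
  have hy : ((y : ℤ) : ZMod l) ≠ 0 := by
    intro h
    rw [h] at h0
    have h1 : ((x : ℤ) : ZMod l) ^ 2 = 0 := by linear_combination h0
    have h2 : ((x : ℤ) : ZMod l) = 0 := by
      exact pow_eq_zero_iff (two_ne_zero) |>.1 h1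
    have h3 := (ZMod.intCast_zmod_eq_zero_iff_dvd _ _).1 h
    have h4 := (ZMod.intCast_zmod_eq_zero_iff_dvd _ _).1 h2
    have h5 : (l : ℤ) ∣ (Int.gcd x y : ℤ) := Int.dvd_coe_gcd h4 h3
    rw [hp] at h5
    have : l ∣ 1 := by exact_mod_cast h5
    exact hl.one_lt.ne' (Nat.dvd_one.1 this)
  refine ⟨(2 * (x : ZMod l) + b * A * y) / (A * y), ?_⟩
  field_simp
  push_cast
  linear_combination (4 : ZMod l) * h0

/-- the product of an element and its translate has character `1` after dividing by the gcd -/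
lemma chi_one {D : ℤ} {A : ℕ} (hA : IsChi A (chi D A)) {E n x y P : ℤ}
    (hP : P = E * n) (hxy : (A : ℤ) ∣ P - x * y) (hx : Int.gcd x A = 1)
    (hc : chi D A x = chi D A y) (hE : chi D A E = 1) : chi D A n = 1 := by
  have h1 : chi D A P = chi D A (x * y) := hA.per _ _ hxy
  rw [hP, hA.mul, hA.mul, hE, one_mul, ← hc] at h1
  rw [h1]
  rcases hA.val x hx with h | h <;> rw [h] <;> norm_num

/-- the gcd has character `1` -/
lemma chi_E {b m : ℤ} {A : ℕ}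
    (h3 : ∀ n : ℕ, Nat.Coprime n A →
      (∀ l : ℕ, l.Prime → l ∣ n → ∃ x : ZMod l, x * x = ((b ^ 2 - 4 * m : ℤ) : ZMod l)) →
      chi (b ^ 2 - 4 * m) A n = 1)
    {E : ℕ} (hEA : Nat.Coprime E A) {u z z' : Qd (b * A) (m * A ^ 2)} {N1 N2 N3 P Q : ℤ}
    (h1 : N1 = z.re ^ 2 + (b * A) * z.re * z.im + (m * A ^ 2) * z.im ^ 2)
    (h2 : N2 = u.re ^ 2 + (b * A) * u.re * u.im + (m * A ^ 2) * u.im ^ 2)
    (h2' : N3 = z'.re ^ 2 + (b * A) * z'.re * z'.im + (m * A ^ 2) * z'.im ^ 2)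
    (pz : prim z) (pu : prim u) (pz' : prim z')
    (hid : N1 * (N2 * N3) = P ^ 2 + (b * A) * P * Q + (m * A ^ 2) * Q ^ 2)
    (hP : (E : ℤ) ∣ P) (hQ : (E : ℤ) ∣ Q) : chi (b ^ 2 - 4 * m) A E = 1 := by
  refine h3 E hEA fun l hl hlE => ?_
  have hlA : Nat.Coprime l A := Nat.Coprime.coprime_dvd_left hlE hEA
  have hlE' : (l : ℤ) ∣ (E : ℤ) := Int.natCast_dvd_natCast.2 hlE
  have hlP := hlE'.trans hP
  have hlQ := hlE'.trans hQ
  have hdv : (l : ℤ) ∣ N1 * (N2 * N3) := by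
    rw [hid]
    refine dvd_add (dvd_add ?_ ?_) ?_
    · exact dvd_pow hlP two_ne_zero
    · exact Dvd.dvd.mul_left hlQ _
    · exact Dvd.dvd.mul_left (dvd_pow hlQ two_ne_zero) _
  have hlp : Prime (l : ℤ) := Nat.prime_iff_prime_int.1 hl
  rcases hlp.dvd_or_dvd hdv with h | h
  · exact sq_of_prim h1 pz hl hlA h
  · rcases hlp.dvd_or_dvd h with h | h
    · exact sq_of_prim h2 pu hl hlA h
    · exact sq_of_prim h2' pz' hl hlA h

theorem trii_of {g : ℕ → ℤ} {b m : ℤ} {A : ℕ} (hg : Pm g) (hD : b ^ 2 < 4 * m) (hA : 1 ≤ A)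
    (hDA : 4 * (b ^ 2 - 4 * m) ∣ (A : ℤ)) (hchi : S_CHI) : S_TRII g b m A := by
  classical
  intro u B hua pu
  have ha : 1 ≤ A := hA
  have hae : ∀ p : ℕ, p.Prime → p ∣ A → p ∣ A := fun _ _ h => h
  have hu : u ≠ 0 := Pool.Agent.W78.GA.prim_ne_zero pu
  have hD0 : b ^ 2 - 4 * m ≠ 0 := by omega
  obtain ⟨hK1, hK2, hX3⟩ := hchi (b ^ 2 - 4 * m) A hD0 hA hDA
  obtain ⟨C₁, hC₁⟩ := Pool.Agent.H287.Q648.mul_of hD A u (B ^ 2) ha hu
  have haR : (1 : ℤ) ≤ (A : ℤ) := by exact_mod_cast ha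
  have hDa : (b * A) ^ 2 < 4 * (m * (A : ℤ) ^ 2) := by
    have : 0 < (A : ℤ) ^ 2 := by positivity
    nlinarith
  refine ⟨(C₁ : ℝ) * (B * B ^ 2) + nm u + 1, ?_, ?_⟩
  · have : (0 : ℝ) ≤ (C₁ : ℝ) * (B * B ^ 2) + nm u := by positivity
    linarith
  intro X hX
  set C : ℝ := (C₁ : ℝ) * (B * B ^ 2) + nm u + 1 with hC
  have hC0 : 0 ≤ (C₁ : ℝ) * (B * B ^ 2) := by positivity
  have hCu : (0 : ℝ) ≤ (nm u : ℝ) := by positivity
  set T : Finset (Σ _ : ℤ, Tr) :=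
    ((Icc (-(B : ℤ)) B).erase 0).sigma (fun k => TX g b m A (A * k) (C * X)) with hT
  have hTcard : T.card = ∑ k ∈ (Icc (-(B : ℤ)) B).erase 0, (TX g b m A (A * k) (C * X)).card :=
    Finset.card_sigma _ _
  have hmem : ∀ p ∈ NPI g b m A (chi (b ^ 2 - 4 * m) A) u B X, p.1 ≠ 0 ∧ p.2 ≠ 0 ∧ dt p.1 (u * p.2) ≠ 0 ∧
      (nm p.1 : ℝ) ≤ X ∧ (nm p.2 : ℝ) ≤ X ∧ Int.gcd p.1.re A = 1 ∧ Int.gcd p.2.re A = 1 ∧
      g (nm p.1) ≠ g (nm (u * p.2)) ∧ |dt p.1 (u * p.2)| ≤ B ∧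
      0 < 2 * ip p.1 (u * p.2) + (b * A) * dt p.1 (u * p.2) ∧ prim p.1 ∧ prim p.2 ∧
      chi (b ^ 2 - 4 * m) A p.1.re = chi (b ^ 2 - 4 * m) A (u * p.2).re := by
    intro p hp
    unfold NPI at hp
    rw [mem_filter, mem_product] at hp
    obtain ⟨⟨hp1, hp2⟩, hg1, hch, hB, hpos⟩ := hp
    unfold UU at hp1 hp2
    rw [mem_filter, Pool.Agent.W78.GA.mem_pball hDa] at hp1 hp2
    have hz := Pool.Agent.W78.GA.prim_ne_zero hp1.1.1
    have hz' := Pool.Agent.W78.GA.prim_ne_zero hp2.1.1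
    refine ⟨hz, hz', ?_, hp1.1.2, hp2.1.2, hp1.2, hp2.2, hg1, hB, hpos, hp1.1.1, hp2.1.1, hch⟩
    intro h0
    apply hg1
    have hid := Pool.Agent.W78.GA.ip_dt hDa p.1 (u * p.2)
    rw [h0] at hid
    have hid2 : nm p.1 * nm (u * p.2) = (ip p.1 (u * p.2)).natAbs * (ip p.1 (u * p.2)).natAbs := by
      have h1 : (nm p.1 : ℤ) * nm (u * p.2) = ip p.1 (u * p.2) * ip p.1 (u * p.2) := by
        rw [hid]; ring
      have h2 := congrArg Int.natAbs h1
      rw [Int.natAbs_mul, Int.natAbs_mul, Int.natAbs_natCast, Int.natAbs_natCast] at h2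
      exact h2
    have n1 : nm p.1 ≠ 0 := (Pool.Agent.W78.GA.nm_pos hDa hz).ne'
    have n2 : nm (u * p.2) ≠ 0 := by
      rw [Pool.Agent.W78.GA.nm_mul]
      exact (Nat.mul_pos (Pool.Agent.W78.GA.nm_pos hDa hu)
        (Pool.Agent.W78.GA.nm_pos hDa hz')).ne'
    have n3 : (ip p.1 (u * p.2)).natAbs ≠ 0 := by
      intro h3
      rw [h3] at hid2
      exact mul_ne_zero n1 n2 hid2
    have h4 := congrArg g hid2
    rw [hg.mul n1 n2, hg.mul n3 n3, hg.mul_self] at h4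
    have h5 := hg.mul_self (nm (u * p.2))
    have h6 := hg.ne_zero (nm (u * p.2))
    exact mul_right_cancel₀ h6 (h4.trans h5.symm)
  have hmaps : ∀ p ∈ NPI g b m A (chi (b ^ 2 - 4 * m) A) u B X, psi u p ∈ ((Icc 1 B) ×ˢ (Icc 1 (B ^ 2))) ×ˢ T := by
    intro p hp
    obtain ⟨hz, hz', hdt, hX1, hX2, hc1, hc2, hg1, hB, hpos, pz, pz', hch⟩ := hmem p hp
    obtain ⟨E, G, n, k, d, d', hpsi, hE, hG, hGE, hd, hd', hdn, hdn', hnm, hip, hdte, hgcd, heq,
      hprod⟩ := psi_facts hDa u p.1 p.2 hz hu hz' hdt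
    have hE0 : (0 : ℤ) < E := by exact_mod_cast hE
    have hk0 : k ≠ 0 := by
      rintro rfl
      apply hdt
      rw [hdte, mul_zero]
    have hkB : |k| * E ≤ B := by
      have : |dt p.1 (u * p.2)| = |k| * E := by
        rw [hdte, abs_mul, mul_comm, abs_of_pos hE0]
      rw [← this]; exact hB
    have hk1 : 1 ≤ |k| := Int.one_le_abs hk0
    have hEB : (E : ℤ) ≤ B := by nlinarith
    have hkB' : |k| ≤ B := by
      have : (1 : ℤ) ≤ E := by exact_mod_cast hE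
      nlinarith
    have hEB' : E ≤ B := by exact_mod_cast hEB
    have hpsi' : psi u p = ((E, G), ⟨k, (d, n, d')⟩) := hpsi
    rw [hpsi', mem_product, mem_product, Finset.mem_Icc, Finset.mem_Icc, hT, Finset.mem_sigma,
      Finset.mem_erase, Finset.mem_Icc]
    refine ⟨⟨⟨hE, hEB'⟩, hG, hGE.trans (Nat.pow_le_pow_left hEB' 2)⟩, ⟨hk0, abs_le.1 hkB'⟩, ?_⟩
    have hcop : IsCoprime (ip p.1 (u * p.2)) (A : ℤ) := ip_coprime hae u p.1 p.2 hua hc1 hc2
    rw [hip] at hcop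
    have hcop2 : IsCoprime n (A : ℤ) := IsCoprime.of_mul_left_right hcop
    have hcop3 : IsCoprime n ((A : ℤ) * k) :=
      hcop2.mul_right (Int.isCoprime_iff_gcd_eq_one.2 hgcd)
    unfold TX
    rw [mem_filter, Pool.Agent.W78.GT.mem_tri]
    have hX0 : 0 ≤ X := by linarith
    refine ⟨⟨hd, ?_, hd', ?_, ?_, ?_⟩, Int.isCoprime_iff_gcd_eq_one.1 hcop3, ?_⟩
    · have h1 : (d : ℝ) ≤ nm p.1 := by exact_mod_cast hdn
      have h2 : X ≤ C * X := by
        have : (1 : ℝ) ≤ C := by rw [hC]; linarith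
        nlinarith
      simp only
      linarith
    · have h1 : (d' : ℝ) ≤ nm (u * p.2) := by exact_mod_cast hdn'
      rw [Pool.Agent.W78.GA.nm_mul] at h1
      push_cast at h1
      have h2 : (nm u : ℝ) * nm p.2 ≤ nm u * X := mul_le_mul_of_nonneg_left hX2 hCu
      have h3 : (nm u : ℝ) * X ≤ C * X := by
        apply mul_le_mul_of_nonneg_right _ hX0
        rw [hC]; linarith
      simp only
      linarith
    · simp only
      rw [heq]
      unfold Qp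
      ring
    · simp only
      have h1 : 0 < (E : ℤ) * (2 * n + b * (A * k)) := by
        have : (E : ℤ) * (2 * n + b * (A * k)) =
          2 * ip p.1 (u * p.2) + (b * A) * dt p.1 (u * p.2) := by
          rw [hip, hdte]; ring
        rw [this]; exact hpos
      exact (pos_of_mul_pos_right h1 hE0.le).le
    · unfold NT
      simp only
      have n1 : nm p.1 ≠ 0 := (Pool.Agent.W78.GA.nm_pos hDa hz).ne'
      have n2 : nm (u * p.2) ≠ 0 := by
        rw [Pool.Agent.W78.GA.nm_mul]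
        exact (Nat.mul_pos (Pool.Agent.W78.GA.nm_pos hDa hu)
          (Pool.Agent.W78.GA.nm_pos hDa hz')).ne'
      have h4 := congrArg g hprod
      rw [mul_comm (d * d'), hg.sq_mul (by omega) (mul_ne_zero (by omega) (by omega)),
        hg.mul n1 n2] at h4
      rw [h4]
      refine ⟨(hg.eq_iff _ _).1 hg1, ?_⟩
      have hEc : Nat.Coprime E A := by
        have : IsCoprime (E : ℤ) (A : ℤ) := IsCoprime.of_mul_left_left hcop
        exact Nat.isCoprime_iff_coprime.1 this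
      have hcE : chi (b ^ 2 - 4 * m) A E = 1 := by
        refine chi_E hX3 hEc (Pool.Agent.W78.GA.nm_cast hDa p.1) (Pool.Agent.W78.GA.nm_cast hDa u)
          (Pool.Agent.W78.GA.nm_cast hDa p.2) pz pu pz' (P := ip p.1 (u * p.2))
          (Q := dt p.1 (u * p.2)) ?_ ⟨n, hip⟩ ⟨k, hdte⟩
        have := Pool.Agent.W78.GA.ip_dt hDa p.1 (u * p.2)
        rw [Pool.Agent.W78.GA.nm_mul] at this
        push_cast at this
        exact this
      refine chi_one hK1 hip ?_ hc1 hch hcE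
      refine ⟨b * p.1.im * (u * p.2).re + m * A * p.1.im * (u * p.2).im, ?_⟩
      unfold ip
      ring
  have hfib : ∀ y ∈ ((Icc 1 B) ×ˢ (Icc 1 (B ^ 2))) ×ˢ T,
      ((NPI g b m A (chi (b ^ 2 - 4 * m) A) u B X).filter (fun p => psi u p = y)).card ≤ C₁ := by
    rintro ⟨⟨E, G⟩, ⟨k, ⟨d, n, d'⟩⟩⟩ hy
    rw [mem_product, mem_product, Finset.mem_Icc, Finset.mem_Icc, hT, Finset.mem_sigma] at hy
    obtain ⟨⟨⟨hE, hEB⟩, hG, hGB⟩, -, hTS⟩ := hy
    simp only at hE hEB hG hGB hTS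
    unfold TX at hTS
    rw [mem_filter, Pool.Agent.W78.GT.mem_tri] at hTS
    obtain ⟨⟨hd, -, hd', -, hq, -⟩, hgcd, -⟩ := hTS
    simp only at hd hd' hq hgcd
    have hB1 : 1 ≤ B := hE.trans hEB
    have hEB2 : E ≤ B ^ 2 := by nlinarith
    have hgcd' : Int.gcd n k = 1 := by
      rw [← Int.isCoprime_iff_gcd_eq_one] at hgcd ⊢
      exact IsCoprime.of_mul_right_right hgcd
    have hq' : (d : ℤ) * d' = n ^ 2 + (b * A) * n * k + (m * (A : ℤ) ^ 2) * k ^ 2 := by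
      rw [hq]
      unfold Qp
      ring
    refine hC₁ E G n k d d' _ hE hEB2 hG hGB hd hd' hgcd' hq' ?_
    intro p hp
    rw [mem_filter] at hp
    obtain ⟨hz, hz', hdt, -⟩ := hmem p hp.1
    obtain ⟨E₂, G₂, n₂, k₂, d₂, d₂', hpsi, -, -, -, -, -, -, -, hnm, hip, hdte, -, -, -⟩ :=
      psi_facts hDa u p.1 p.2 hz hu hz' hdt
    have hpsi' : psi u p = ((E₂, G₂), ⟨k₂, (d₂, n₂, d₂')⟩) := hpsi
    have h1 := hpsi'.symm.trans hp.2
    obtain ⟨h2, h3⟩ := Prod.ext_iff.1 h1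
    obtain ⟨h4, h5⟩ := Prod.ext_iff.1 h2
    simp only at h3 h4 h5
    obtain ⟨h6, h7⟩ := Sigma.mk.inj_iff.1 h3
    have h8 := eq_of_heq h7
    obtain ⟨h9, h10⟩ := Prod.ext_iff.1 h8
    obtain ⟨h11, h12⟩ := Prod.ext_iff.1 h10
    simp only at h9 h11 h12
    subst h4 h5 h6 h9 h11
    exact ⟨hnm, hip, hdte⟩
  have hcard := Finset.card_le_mul_card_image_of_maps_to hmaps C₁ hfib
  rw [card_product, card_product, Nat.card_Icc, Nat.card_Icc, Nat.add_sub_cancel,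
    Nat.add_sub_cancel, hTcard] at hcard
  have hcardR : ((NPI g b m A (chi (b ^ 2 - 4 * m) A) u B X).card : ℝ) ≤ (C₁ : ℝ) * (B * B ^ 2 *
      ∑ k ∈ (Icc (-(B : ℤ)) B).erase 0, ((TX g b m A (A * k) (C * X)).card : ℝ)) := by
    exact_mod_cast hcard
  refine hcardR.trans ?_
  have hS : (0 : ℝ) ≤ ∑ k ∈ (Icc (-(B : ℤ)) B).erase 0,
      ((TX g b m A (A * k) (C * X)).card : ℝ) := Finset.sum_nonneg (fun _ _ => by positivity)
  rw [← mul_assoc]
  apply mul_le_mul_of_nonneg_right _ hS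
  rw [hC]
  linarith

end Pool.Agent.H356.Q648
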